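import Pool.Agent.L0h32.LT2.Stm

/-! LT2: parameters. -/

set_option autoImplicit false

namespace Pool.Agent.L0h44.LT2

open Pool.Agent.L0h32.LT2

theorem t_PAR2 : S_PAR2 := by
  intro J hJ
  obtain ⟨a, ha1, ha2⟩ : ∃ a : ℕ, J ≤ 2 ^ a ∧ 2 ^ a < 2 * J := by
    have hex : ∃ n : ℕ, J ≤ 2 ^ n := ⟨J, Nat.lt_two_pow_self.le⟩
    refine ⟨Nat.find hex, Nat.find_spec hex, ?_⟩
    have h2 : Nat.find hex ≠ 0 := by
      intro h0
      have h1 := Nat.find_spec hex
      rw [h0, pow_zero] at h1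
      omega
    obtain ⟨j, hj⟩ := Nat.exists_eq_succ_of_ne_zero h2
    have h3 := Nat.find_min hex (m := j) (by omega)
    rw [hj, Nat.succ_eq_add_one, pow_succ]
    omega
  obtain ⟨b, hb⟩ : ∃ b : ℕ, b = 2 ^ a := ⟨_, rfl⟩
  rw [← hb] at ha1 ha2
  have hab : a ≤ b := by rw [hb]; exact Nat.lt_two_pow_self.le
  have haJ : a ≤ J := by
    rcases Nat.eq_zero_or_pos a with h0 | h0
    · omega
    · obtain ⟨c, rfl⟩ := Nat.exists_eq_succ_of_ne_zero h0.ne'
      have h1 : c < 2 ^ c := Nat.lt_two_pow_self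
      rw [hb, Nat.succ_eq_add_one, pow_succ] at ha2
      omega
  refine ⟨4 * a + 30, ?_, ?_⟩
  · have hl : lam J (4 * a + 30) ≤ 23 * b := by unfold lam; omega
    have hJb : J ^ 2 ≤ b ^ 2 := Nat.pow_le_pow_left ha1 2
    have h1 : lam J (4 * a + 30) * J ^ 2 ≤ 23 * b * b ^ 2 := Nat.mul_le_mul hl hJb
    have hb2 : 2 ≤ b := by omega
    have hb3 : 4 * b ≤ b ^ 3 := by
      have : b ^ 3 = b * b * b := by ring
      rw [this]
      have h4 : 2 * 2 ≤ b * b := Nat.mul_le_mul hb2 hb2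
      nlinarith
    have h5 : dex J (4 * a + 30) + 15 ≤ 65 * b ^ 3 := by
      unfold dex
      have e1 : 2 * lam J (4 * a + 30) * J ^ 2 = 2 * (lam J (4 * a + 30) * J ^ 2) := by ring
      have e2 : 23 * b * b ^ 2 = 23 * b ^ 3 := by ring
      rw [e1]
      rw [e2] at h1
      omega
    calc 2 ^ 17 * (dex J (4 * a + 30) + 15) ≤ 2 ^ 17 * (65 * b ^ 3) := Nat.mul_le_mul_left _ h5
      _ ≤ 2 ^ 17 * (2 ^ 13 * (b ^ 3 * b)) := by
        apply Nat.mul_le_mul_left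
        have : 65 * b ^ 3 ≤ 2 ^ 13 * b ^ 3 := Nat.mul_le_mul_right _ (by norm_num)
        refine this.trans (Nat.mul_le_mul_left _ ?_)
        exact Nat.le_mul_of_pos_right _ (by omega)
      _ = 2 ^ (4 * a + 30) := by rw [hb]; ring
  · have hl : lam J (4 * a + 30) ≤ 23 * J := by unfold lam; omega
    have h1 : lam J (4 * a + 30) * J ^ 2 ≤ 23 * J * J ^ 2 := Nat.mul_le_mul_right _ hl
    have hJ3 : 4 * J ≤ J ^ 3 := by
      have : J ^ 3 = J * J * J := by ring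
      rw [this]
      have h4 : 2 * 2 ≤ J * J := Nat.mul_le_mul hJ hJ
      nlinarith
    have h5 : dex J (4 * a + 30) + 1 ≤ 1536 * J ^ 3 := by
      unfold dex
      have e1 : 2 * lam J (4 * a + 30) * J ^ 2 = 2 * (lam J (4 * a + 30) * J ^ 2) := by ring
      have e2 : 23 * J * J ^ 2 = 23 * J ^ 3 := by ring
      rw [e1]
      rw [e2] at h1
      omega
    calc 2 * J * J * (dex J (4 * a + 30) + 1) ≤ 2 * J * J * (1536 * J ^ 3) :=
          Nat.mul_le_mul_left _ h5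
      _ = 3072 * J ^ 5 := by ring

end Pool.Agent.L0h44.LT2
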